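import Pool.Agent.Q113.XM.Stm

/-!
# Project XM of helper113, job HMT (matchings avoiding a small set)
-/

set_option autoImplicit false

namespace Pool.Agent.Q14.XM

open Finset Pool.Agent.W890.SF Pool.Agent.W593.IR Pool.Agent.Q54.EM Pool.Agent.Q113.XM

theorem ms_mono {V : Type} [DecidableEq V] (k : ℕ) (F : Finset (Finset V)) {T T' : Finset V}
    (h : T ⊆ T') (v : V) : ms k F T v ≤ ms k F T' v := by
  unfold ms
  apply Finset.card_le_card
  apply Finset.filter_subset_filter
  exact Finset.powersetCard_mono (Finset.erase_subset_erase v h)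

theorem t_HMT (hG : S_GRE) (hP : S_PMN) : S_HMT := by
  intro k hk c0 c hc0 hc
  have hk0 : 0 < k := by omega
  have hkr : (0 : ℝ) < k := by exact_mod_cast hk0
  obtain ⟨δ1, hδ1, n1, h1⟩ := hG k (by omega) c hc
  obtain ⟨γ, hγ, n2, h2⟩ := hP k hk (c0 / 2) (by positivity)
  obtain ⟨δ, hδ, hδa, hδb, hδc⟩ : ∃ δ : ℝ, 0 < δ ∧ δ ≤ δ1 / 2 ∧ δ ≤ γ ∧ δ * (k + 1) ≤ c0 / 4 := by
    refine ⟨min (min (δ1 / 2) γ) (c0 / (4 * (k + 1))), ?_, ?_, ?_, ?_⟩
    · apply lt_min
      · exact lt_min (by positivity) hγ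
      · positivity
    · exact le_trans (min_le_left _ _) (min_le_left _ _)
    · exact le_trans (min_le_left _ _) (min_le_right _ _)
    · have h3 : min (min (δ1 / 2) γ) (c0 / (4 * (k + 1))) ≤ c0 / (4 * (k + 1)) := min_le_right _ _
      calc min (min (δ1 / 2) γ) (c0 / (4 * (k + 1))) * (k + 1) ≤ c0 / (4 * (k + 1)) * (k + 1) :=
            mul_le_mul_of_nonneg_right h3 (by positivity)
        _ = c0 / 4 := by field_simp
  obtain ⟨n3, hn3⟩ := exists_nat_gt (4 * k / c0)
  refine ⟨δ, hδ, max (max n1 n2) n3, ?_⟩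
  intro n hn F hF T H Z hTH hT hms hdg hHT hZ q hq
  have hnn1 : n1 ≤ n := le_trans (le_trans (le_max_left _ _) (le_max_left _ _)) hn
  have hnn2 : n2 ≤ n := le_trans (le_trans (le_max_right _ _) (le_max_left _ _)) hn
  have hnn3 : n3 ≤ n := le_trans (le_max_right _ _) hn
  have hn0 : (0 : ℝ) ≤ n := Nat.cast_nonneg n
  have hkn : (k : ℝ) ≤ c0 / 4 * n := by
    have h3 : 4 * k / c0 ≤ n := le_trans hn3.le (by exact_mod_cast hnn3)
    rw [div_le_iff₀ hc0] at h3
    linarith
  set X : Finset (Fin n) := (H \ T) \ Z with hX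
  have hXc : (X.card : ℝ) ≤ δ * n := by
    refine le_trans ?_ hHT
    exact_mod_cast Finset.card_le_card Finset.sdiff_subset
  have hXH : X ⊆ H := fun v hv => (Finset.mem_sdiff.mp (Finset.mem_sdiff.mp hv).1).1
  have hXZ : Disjoint X Z := Finset.sdiff_disjoint
  have hsum : ∀ X' : Finset (Fin n), X' ⊆ X → (X'.card : ℝ) + Z.card ≤ δ1 * n := by
    intro X' hX'
    have h3 : (X'.card : ℝ) ≤ X.card := by exact_mod_cast Finset.card_le_card hX'
    have h4 : δ * n ≤ δ1 / 2 * n := mul_le_mul_of_nonneg_right hδa hn0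
    linarith
  by_cases hqX : q ≤ X.card
  · obtain ⟨X', hX', hX'c⟩ := Finset.exists_subset_card_eq hqX
    obtain ⟨M, hMF, hM, hMc, hMZ, -⟩ := h1 n hnn1 F hF X' Z
      (Finset.disjoint_of_subset_left hX' hXZ) (fun v hv => hdg v (hXH (hX' hv))) (hsum X' hX')
    exact ⟨M, hMF, hM, by rw [hMc, hX'c], hMZ⟩
  · rw [not_le] at hqX
    obtain ⟨M1, hM1F, hM1, hM1c, hM1Z, hM1X⟩ := h1 n hnn1 F hF X Z hXZ
      (fun v hv => hdg v (hXH hv)) (hsum X (Finset.Subset.refl _))
    set W : Finset (Fin n) := M1.biUnion id with hW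
    have hWc : W.card ≤ k * X.card := by
      have h3 : W.card ≤ ∑ e ∈ M1, (id e).card := Finset.card_biUnion_le
      have h4 : ∑ e ∈ M1, (id e).card = ∑ _e ∈ M1, k :=
        Finset.sum_congr rfl fun e he => hF e (hM1F he)
      rw [h4, Finset.sum_const, smul_eq_mul, hM1c, mul_comm] at h3
      exact h3
    set T1 : Finset (Fin n) := (T \ Z) \ W with hT1
    -- the size of `T1`
    have hWX : (W \ X).card + X.card = W.card := by
      rw [Finset.card_sdiff_add_card_eq_card hM1X]
    have hTX : Disjoint (T \ Z) X := by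
      rw [Finset.disjoint_left]
      intro v hv hvX
      exact (Finset.mem_sdiff.mp (Finset.mem_sdiff.mp hvX).1).2 (Finset.mem_sdiff.mp hv).1
    have hT1a : (T \ Z).card ≤ T1.card + (W \ X).card := by
      have h3 : T \ Z ⊆ T1 ∪ (W \ X) := by
        intro v hv
        by_cases hvW : v ∈ W
        · apply Finset.mem_union_right
          rw [Finset.mem_sdiff]
          exact ⟨hvW, fun hvX => Finset.disjoint_left.mp hTX hv hvX⟩
        · apply Finset.mem_union_left
          rw [hT1, Finset.mem_sdiff]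
          exact ⟨hv, hvW⟩
      exact le_trans (Finset.card_le_card h3) (Finset.card_union_le _ _)
    have hHZ : (H \ Z).card ≤ X.card + (T \ Z).card := by
      have h3 : H \ Z ⊆ X ∪ (T \ Z) := by
        intro v hv
        rw [Finset.mem_sdiff] at hv
        by_cases hvT : v ∈ T
        · apply Finset.mem_union_right
          rw [Finset.mem_sdiff]
          exact ⟨hvT, hv.2⟩
        · apply Finset.mem_union_left
          rw [hX, Finset.mem_sdiff, Finset.mem_sdiff]
          exact ⟨⟨hv.1, hvT⟩, hv.2⟩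
      exact le_trans (Finset.card_le_card h3) (Finset.card_union_le _ _)
    have hT1b : k * (q - X.card) ≤ T1.card := by
      obtain ⟨d, hd⟩ := Nat.exists_eq_add_of_lt hqX
      have e1 : q - X.card = d + 1 := by omega
      rw [e1]
      rw [hd] at hq
      have e2 : k * (X.card + d + 1) = k * X.card + k * (d + 1) := by ring
      rw [e2] at hq
      omega
    have hTZ : T.card ≤ (T \ Z).card + Z.card := by
      have h3 : T ⊆ (T \ Z) ∪ Z := by
        intro v hv
        by_cases hvZ : v ∈ Z
        · exact Finset.mem_union_right _ hvZ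
        · exact Finset.mem_union_left _ (Finset.mem_sdiff.mpr ⟨hv, hvZ⟩)
      exact le_trans (Finset.card_le_card h3) (Finset.card_union_le _ _)
    have hT1c : T.card ≤ T1.card + k * X.card + Z.card := by omega
    -- the perfect matching
    set q2 : ℕ := T1.card / k with hq2
    have hq2a : k * q2 ≤ T1.card := Nat.mul_div_le _ _
    have hq2b : T1.card < k * q2 + k := by
      have := Nat.lt_mul_div_succ T1.card hk0
      rw [← hq2] at this
      linarith
    have hq2c : q - X.card ≤ q2 := by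
      rw [hq2, Nat.le_div_iff_mul_le hk0, mul_comm]
      exact hT1b
    obtain ⟨T2, hT2, hT2c⟩ := Finset.exists_subset_card_eq hq2a
    have hT2T : T2 ⊆ T := fun v hv => (Finset.mem_sdiff.mp (Finset.mem_sdiff.mp (hT2 hv)).1).1
    have hT2l : c0 / 2 * n ≤ (T2.card : ℝ) := by
      have h3 : (T.card : ℝ) ≤ T1.card + k * X.card + Z.card := by exact_mod_cast hT1c
      have h4 : (T1.card : ℝ) ≤ T2.card + k := by
        rw [hT2c]
        exact_mod_cast hq2b.le
      have h5 : (k : ℝ) * X.card ≤ k * (δ * n) := mul_le_mul_of_nonneg_left hXc hkr.le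
      have h6 : δ * (k + 1) * n ≤ c0 / 4 * n := mul_le_mul_of_nonneg_right hδc hn0
      have h7 : δ * (k + 1) * n = k * (δ * n) + δ * n := by ring
      rw [h7] at h6
      linarith
    obtain ⟨M2, hM2F, hM2, hM2c, hM2T⟩ := h2 n hnn2 F hF T2 q2 hT2c hT2l (by
      intro v hv
      have h3 : (ms k F T2 v : ℝ) ≤ ms k F T v := by exact_mod_cast ms_mono k F hT2T v
      have h4 : δ * (n : ℝ) ^ (k - 1) ≤ γ * (n : ℝ) ^ (k - 1) :=
        mul_le_mul_of_nonneg_right hδb (by positivity)
      exact le_trans h3 (le_trans (hms v (hT2T hv)) h4))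
    obtain ⟨M3, hM3, hM3c⟩ := Finset.exists_subset_card_eq (s := M2) (n := q - X.card) (by
      rw [hM2c]; exact hq2c)
    have hcross : ∀ e ∈ M1, ∀ e' ∈ M3, Disjoint e e' := by
      intro e he e' he'
      rw [Finset.disjoint_left]
      intro v hv hv'
      have h3 : v ∈ W := by
        rw [hW, Finset.mem_biUnion]
        exact ⟨e, he, hv⟩
      have h4 := hT2 (hM2T e' (hM3 he') hv')
      exact (Finset.mem_sdiff.mp h4).2 h3
    have hdis : Disjoint M1 M3 := by
      rw [Finset.disjoint_left]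
      intro e he he'
      have h3 := hcross e he e he'
      rw [disjoint_self] at h3
      have h4 := hF e (hM1F he)
      rw [h3] at h4
      have h5 : (⊥ : Finset (Fin n)).card = 0 := Finset.card_empty
      omega
    refine ⟨M1 ∪ M3, Finset.union_subset hM1F (hM3.trans hM2F), ?_, ?_, ?_⟩
    · intro e he e' he' hne
      rcases Finset.mem_union.mp he with h3 | h3 <;> rcases Finset.mem_union.mp he' with h4 | h4
      · exact hM1 e h3 e' h4 hne
      · exact hcross e h3 e' h4
      · exact (hcross e' h4 e h3).symm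
      · exact hM2 e (hM3 h3) e' (hM3 h4) hne
    · rw [Finset.card_union_of_disjoint hdis, hM1c, hM3c]
      omega
    · intro e he
      rcases Finset.mem_union.mp he with h3 | h3
      · exact hM1Z e h3
      · rw [Finset.disjoint_left]
        intro v hv hvZ
        have h4 := hT2 (hM2T e (hM3 h3) hv)
        exact (Finset.mem_sdiff.mp (Finset.mem_sdiff.mp h4).1).2 hvZ

end Pool.Agent.Q14.XM
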