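import Pool.Agent.Q113.XM.Stm

/-!
# Project XM of helper113, job STS (stability, star side)
-/

set_option autoImplicit false

namespace Pool.Agent.Q14.XM

open Finset Pool.Agent.W890.SF Pool.Agent.W593.IR Pool.Agent.Q54.EM Pool.Agent.Q113.XM

theorem UP_rec {ι : Type} [Fintype ι] (p y : ι → ℝ) (j : ℕ) (t : ℝ) :
    UP p y (j + 1) t = ∑ i, p i * UP p y j (t - y i) := by
  unfold UP
  show ∑ i, p i * EE p y j (fun s => if t ≤ s + y i then 1 else 0) = _
  apply Finset.sum_congr rfl
  intro i _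
  congr 2
  funext s
  simp only [sub_le_iff_le_add]

/-- `(a + b)^k ≥ a^k + k a^(k-1) b` -/
theorem add_pow_ge {a b : ℝ} (ha : 0 ≤ a) (hb : 0 ≤ b) (k : ℕ) (hk : 1 ≤ k) :
    a ^ k + k * a ^ (k - 1) * b ≤ (a + b) ^ k := by
  induction k, hk using Nat.le_induction with
  | base => simp
  | succ k hk ih =>
    have e1 : a ^ (k - 1) * a = a ^ k := by
      rw [← pow_succ]
      congr 1
      omega
    have h1 : (a ^ k + k * a ^ (k - 1) * b) * (a + b) ≤ (a + b) ^ (k + 1) := by
      rw [pow_succ]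
      exact mul_le_mul_of_nonneg_right ih (by linarith)
    have h2 : (a ^ k + k * a ^ (k - 1) * b) * (a + b) =
        a ^ (k + 1) + k * (a ^ (k - 1) * a) * b + a ^ k * b + k * a ^ (k - 1) * b ^ 2 := by ring
    rw [e1] at h2
    have h3 : 0 ≤ k * a ^ (k - 1) * b ^ 2 := by positivity
    rw [Nat.add_sub_cancel]
    push_cast
    nlinarith

/-- `(a + b)^k ≥ a^k + b^k` -/
theorem add_pow_ge' {a b : ℝ} (ha : 0 ≤ a) (hb : 0 ≤ b) (k : ℕ) (hk : 1 ≤ k) :
    a ^ k + b ^ k ≤ (a + b) ^ k := by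
  induction k, hk using Nat.le_induction with
  | base => simp
  | succ k hk ih =>
    have h1 : (a ^ k + b ^ k) * (a + b) ≤ (a + b) ^ (k + 1) := by
      rw [pow_succ]
      exact mul_le_mul_of_nonneg_right ih (by linarith)
    have h2 : (a ^ k + b ^ k) * (a + b) = a ^ (k + 1) + b ^ (k + 1) + a ^ k * b + b ^ k * a := by ring
    have h3 : 0 ≤ a ^ k * b := by positivity
    have h4 : 0 ≤ b ^ k * a := by positivity
    linarith

/-- `a^n ≤ b^n + n d` if `a ≤ b + d` -/
theorem pow_diff {a b d : ℝ} (ha : 0 ≤ a) (ha1 : a ≤ 1) (hb : 0 ≤ b) (hb1 : b ≤ 1) (hd : 0 ≤ d)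
    (h : a ≤ b + d) (n : ℕ) : a ^ n ≤ b ^ n + n * d := by
  induction n with
  | zero => simp
  | succ n ih =>
    have hbn : b ^ n ≤ 1 := pow_le_one₀ hb hb1
    have hbn0 : 0 ≤ b ^ n := by positivity
    have h1 : a ^ (n + 1) = a * a ^ n := by ring
    have h2 : a * a ^ n ≤ a * (b ^ n + n * d) := mul_le_mul_of_nonneg_left ih ha
    have h3 : a * (b ^ n + n * d) = a * b ^ n + a * (n * d) := by ring
    have h4 : a * b ^ n ≤ (b + d) * b ^ n := mul_le_mul_of_nonneg_right h hbn0
    have h5 : (b + d) * b ^ n ≤ b ^ (n + 1) + d := by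
      have : (b + d) * b ^ n = b ^ (n + 1) + d * b ^ n := by ring
      rw [this]
      nlinarith
    have h6 : a * (n * d) ≤ n * d := by
      have : 0 ≤ (n : ℝ) * d := by positivity
      nlinarith
    push_cast
    linarith

/-- Bernoulli: `1 - k ε ≤ (1 - ε)^k` -/
theorem bern {ε : ℝ} (h1 : ε ≤ 1) (k : ℕ) : 1 - k * ε ≤ (1 - ε) ^ k := by
  have := one_add_mul_le_pow (a := -ε) (by linarith) k
  have e : (1 : ℝ) + -ε = 1 - ε := by ring
  rw [e] at this
  linarith

theorem t_STS (hCRF : S_CRF) (hPRT : S_PRT) (hSHI : S_SHI) (hBRG : S_BRG) (hSAS : S_SAS) : S_STS := by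
  intro k hk hL c hc x0 e0 γ hx0 he0 hγ
  have hk2 : 2 ≤ k := by omega
  have hk1 : 1 ≤ k := by omega
  obtain ⟨hc0, hkc, -⟩ := id hc
  obtain ⟨hm1, -, -⟩ := hCRF k hk2 c hc
  have hkr : (3 : ℝ) ≤ k := by exact_mod_cast hk
  have hc1 : c < 1 := by nlinarith
  -- parameters
  set x1 : ℝ := min x0 c with hx1
  have hx1p : 0 < x1 := lt_min hx0 hc0
  have hx1c : x1 ≤ c := min_le_right _ _
  set L : ℝ := 1 - (1 - x1) ^ k with hL0
  have hLp : 0 < L := by
    have : (1 - x1) ^ k < 1 := pow_lt_one₀ (by linarith) (by linarith) (by omega)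
    linarith
  obtain ⟨ηS, hηS, hS⟩ := hSAS (k - 1) (by omega) (L / (2 * k)) (γ / 2) (by positivity) (by positivity)
  set μ0 : ℝ := (1 - k * c) / 2 with hμ0
  have hμ0p : 0 < μ0 := by rw [hμ0]; linarith
  obtain ⟨g, hg0, hg1, hg2, hg3, hg4⟩ : ∃ g : ℝ, 0 < g ∧ g ≤ γ / 2 ∧ g ≤ 1 / (2 * k) ∧ g ≤ 1 - k * c ∧
      g ≤ ηS / (4 * k) := by
    refine ⟨min (min (γ / 2) (1 / (2 * k))) (min (1 - k * c) (ηS / (4 * k))), ?_, ?_, ?_, ?_, ?_⟩
    · apply lt_min
      · apply lt_min
        · positivity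
        · positivity
      · apply lt_min
        · linarith
        · positivity
    · exact le_trans (min_le_left _ _) (min_le_left _ _)
    · exact le_trans (min_le_left _ _) (min_le_right _ _)
    · exact le_trans (min_le_right _ _) (min_le_left _ _)
    · exact le_trans (min_le_right _ _) (min_le_right _ _)
  obtain ⟨θ, hθ0, hθ1, hθ2⟩ : ∃ θ : ℝ, 0 < θ ∧ θ ≤ 1 ∧ θ ≤ μ0 * ηS / 8 :=
    ⟨min 1 (μ0 * ηS / 8), lt_min one_pos (by positivity), min_le_left _ _, min_le_right _ _⟩
  obtain ⟨ε, hε0, hε1, hε2, hε3⟩ : ∃ ε : ℝ, 0 < ε ∧ ε ≤ e0 ∧ ε ≤ θ / (4 * k) ∧ ε ≤ 1 / 2 :=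
    ⟨min (min e0 (θ / (4 * k))) (1 / 2), lt_min (lt_min he0 (by positivity)) (by norm_num),
      le_trans (min_le_left _ _) (min_le_left _ _), le_trans (min_le_left _ _) (min_le_right _ _),
      min_le_right _ _⟩
  obtain ⟨η, hη0, hη1, hη2, hη3, hη4⟩ : ∃ η : ℝ, 0 < η ∧ η ≤ k * ε * θ / 2 ∧ η < (g * μ0) ^ k ∧
      η ≤ μ0 * ηS / 8 ∧ η ≤ L / 2 := by
    refine ⟨min (min (k * ε * θ / 2) ((g * μ0) ^ k / 2)) (min (μ0 * ηS / 8) (L / 2)), ?_, ?_, ?_, ?_, ?_⟩
    · apply lt_min
      · apply lt_min <;> positivity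
      · apply lt_min <;> positivity
    · exact le_trans (min_le_left _ _) (min_le_left _ _)
    · have h1 : min (min (k * ε * θ / 2) ((g * μ0) ^ k / 2)) (min (μ0 * ηS / 8) (L / 2)) ≤ (g * μ0) ^ k / 2 :=
        le_trans (min_le_left _ _) (min_le_right _ _)
      have h2 : 0 < (g * μ0) ^ k := by positivity
      linarith
    · exact le_trans (min_le_right _ _) (min_le_left _ _)
    · exact le_trans (min_le_right _ _) (min_le_right _ _)
  refine ⟨η, hη0, ?_⟩
  intro x hxx0 hxc V _ _ y hy hsum hNG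
  have hx1x : x1 ≤ x := le_trans (min_le_left _ _) hxx0
  have hxp : 0 < x := lt_of_lt_of_le hx1p hx1x
  have hxc' : x ≤ c := by linarith
  have hxlt : x < 1 := by linarith
  obtain ⟨hW, hmu, hcount⟩ := hBRG V y hy
  set n : ℝ := (Fintype.card V : ℝ) with hn
  have hn0 : 0 < n := by
    rw [hn]
    exact_mod_cast Fintype.card_pos
  set p : V → ℝ := fun _ => 1 / n with hp
  set m : ℝ := mu p y with hmdef
  have hmx : m ≤ x := by
    rw [hmu, div_le_iff₀ hn0]
    exact hsum
  have hm0 : 0 ≤ m := by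
    rw [hmu]
    exact div_nonneg (Finset.sum_nonneg fun v _ => hy v) hn0.le
  -- probabilities are at most one and monotone
  have hU1 : ∀ j t, UP p y j t ≤ 1 := by
    intro j t
    have h1 := hcount j t
    have h2 : (({f : Fin j → V | t ≤ ∑ i, y (f i)}.ncard : ℕ) : ℝ) ≤ n ^ j := by
      have h3 : {f : Fin j → V | t ≤ ∑ i, y (f i)}.ncard ≤ Fintype.card V ^ j := by
        have h4 := Set.ncard_le_card {f : Fin j → V | t ≤ ∑ i, y (f i)}
        rw [Nat.card_eq_fintype_card, Fintype.card_fun, Fintype.card_fin] at h4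
        exact h4
      rw [hn]
      exact_mod_cast h3
    rw [← h1] at h2
    have h5 : 0 < n ^ j := by positivity
    by_contra hcon
    rw [not_le] at hcon
    nlinarith
  have hUmono : ∀ j (s t : ℝ), s ≤ t → UP p y j t ≤ UP p y j s := by
    intro j s t hst
    have h1 := hcount j t
    have h2 := hcount j s
    have h3 : (({f : Fin j → V | t ≤ ∑ i, y (f i)}.ncard : ℕ) : ℝ) ≤
        (({f : Fin j → V | s ≤ ∑ i, y (f i)}.ncard : ℕ) : ℝ) := by
      have := Set.ncard_le_ncard (s := {f : Fin j → V | t ≤ ∑ i, y (f i)})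
        (t := {f : Fin j → V | s ≤ ∑ i, y (f i)}) (fun f hf => le_trans hst hf) (Set.toFinite _)
      exact_mod_cast this
    rw [← h1, ← h2] at h3
    have h5 : 0 < n ^ j := by positivity
    exact le_of_mul_le_mul_right h3 h5
  have hnk : 0 < n ^ k := by positivity
  have hPk : 1 - (1 - x) ^ k - η ≤ UP p y k 1 := by
    have h1 := hcount k 1
    rw [hm1 x hxp.le hxc'] at hNG
    have h2 : ((NG y k : ℕ) : ℝ) = UP p y k 1 * n ^ k := by
      rw [h1]
      rfl
    rw [h2] at hNG
    exact le_of_mul_le_mul_right hNG hnk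
  have hk0 : (0 : ℝ) < k := by linarith
  have hεk : (k : ℝ) * ε ≤ θ / 4 := by
    have := mul_le_mul_of_nonneg_left hε2 hk0.le
    calc (k : ℝ) * ε ≤ k * (θ / (4 * k)) := this
      _ = θ / 4 := by field_simp
  -- (a)
  have ha : ∀ z : ℝ, 0 ≤ z → UP p y (k - 1) (1 - z) ≤ 1 + θ - (1 - x) ^ (k - 1) * (1 - z) := by
    intro z hz
    have hq0 : 0 ≤ (1 - x) ^ (k - 1) := pow_nonneg (by linarith) _
    rcases le_total z 1 with hz1 | hz1
    · have hx'c : (1 - ε) * x + ε * z ≤ c := by nlinarith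
      have hx'0 : 0 ≤ (1 - ε) * x + ε * z := by
        have : 0 ≤ 1 - ε := by linarith
        positivity
      have h1 := hPRT k hk2 hL V p y z ε ((1 - ε) * x + ε * z) hW hz hε0.le (by linarith) (by
        have h2 : (1 - ε) * mu p y ≤ (1 - ε) * x := mul_le_mul_of_nonneg_left hmx (by linarith)
        linarith) hx'0 (by nlinarith)
      rw [hm1 _ hx'0 hx'c] at h1
      have e1 : 1 - ((1 - ε) * x + ε * z) = (1 - ε) * (1 - x) + ε * (1 - z) := by ring
      rw [e1] at h1
      have h2 := add_pow_ge (a := (1 - ε) * (1 - x)) (b := ε * (1 - z))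
        (mul_nonneg (by linarith) (by linarith)) (mul_nonneg hε0.le (by linarith)) k hk1
      rw [mul_pow, mul_pow] at h2
      set A : ℝ := (1 - ε) ^ k with hA
      set A' : ℝ := (1 - ε) ^ (k - 1) with hA'
      set X : ℝ := (1 - x) ^ k with hX
      set X' : ℝ := (1 - x) ^ (k - 1) with hX'
      set U : ℝ := UP p y (k - 1) (1 - z) with hU
      set W : ℝ := UP p y k 1 with hW'
      have hA0 : 0 < A := pow_pos (by linarith) _
      have hA'0 : 0 < A' := pow_pos (by linarith) _
      have hA1 : A ≤ 1 := pow_le_one₀ (by linarith) (by linarith)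
      have hAb : 1 - k * ε ≤ A := bern (by linarith) k
      have hA'b : 1 - k * ε ≤ A' := by
        refine le_trans (bern (by linarith : ε ≤ 1) k) ?_
        exact pow_le_pow_of_le_one (by linarith) (by linarith) (by omega)
      -- `k ε A' U ≤ k ε + η - k ε A' X' (1 - z)`
      have h3 : A * (1 - X - η) ≤ A * W := mul_le_mul_of_nonneg_left hPk hA0.le
      have h4 : A * η ≤ η := by nlinarith
      have h5 : k * ε * A' * (U + X' * (1 - z)) ≤ k * ε + η := by
        nlinarith
      have h6 : k * ε + η ≤ k * ε * A' * (1 + θ) := by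
        -- `1 + θ/2 ≤ (1 - kε)(1 + θ)`
        have h7 : 1 + θ / 2 ≤ (1 - k * ε) * (1 + θ) := by nlinarith
        have h8 : (1 - k * ε) * (1 + θ) ≤ A' * (1 + θ) := mul_le_mul_of_nonneg_right hA'b (by linarith)
        have h9 : 0 < (k : ℝ) * ε := by positivity
        have h10 : k * ε * (1 + θ / 2) ≤ k * ε * (A' * (1 + θ)) :=
          mul_le_mul_of_nonneg_left (le_trans h7 h8) h9.le
        calc k * ε + η ≤ k * ε + k * ε * θ / 2 := by linarith
          _ = k * ε * (1 + θ / 2) := by ring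
          _ ≤ k * ε * (A' * (1 + θ)) := h10
          _ = _ := by ring
      have h11 : k * ε * A' * (U + X' * (1 - z)) ≤ k * ε * A' * (1 + θ) := le_trans h5 h6
      have h12 := le_of_mul_le_mul_left h11 (by positivity)
      linarith
    · have h1 := hU1 (k - 1) (1 - z)
      have h2 : (1 - x) ^ (k - 1) * (1 - z) ≤ 0 := mul_nonpos_of_nonneg_of_nonpos hq0 (by linarith)
      linarith
  -- (b)
  set X' : ℝ := (1 - x) ^ (k - 1) with hX'
  have hX'0 : 0 ≤ X' := pow_nonneg (by linarith) _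
  have hXX : (1 - x) ^ k = X' * (1 - x) := by
    rw [hX', ← pow_succ]
    congr 1
    omega
  set br : V → ℝ := fun v => 1 + θ - X' * (1 - y v) - UP p y (k - 1) (1 - y v) with hbr
  have hbr0 : ∀ v, 0 ≤ br v := fun v => by
    have := ha (y v) (hy v)
    simp only [hbr]
    linarith
  have hrec : UP p y k 1 = ∑ v, p v * UP p y (k - 1) (1 - y v) := by
    have h1 := UP_rec p y (k - 1) 1
    have h2 : k - 1 + 1 = k := by omega
    rw [h2] at h1
    exact h1
  have hsumbr : ∑ v, p v * br v ≤ θ + η := by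
    have e1 : ∑ v, p v * br v = (1 + θ - X') * ∑ v, p v + X' * m - UP p y k 1 := by
      rw [hrec, hmdef]
      unfold mu
      rw [Finset.mul_sum, Finset.mul_sum, ← Finset.sum_add_distrib, ← Finset.sum_sub_distrib]
      apply Finset.sum_congr rfl
      intro v _
      simp only [hbr]
      ring
    rw [e1, hW.p1]
    have h1 : X' * m ≤ X' * x := mul_le_mul_of_nonneg_left hmx hX'0
    rw [hXX] at hPk
    nlinarith
  -- (c)
  set m0 : ℝ := ∑ i, (if y i ≤ g then p i else 0) with hm0def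
  have hkg : (k : ℝ) * g ≤ 1 / 2 := by
    have := mul_le_mul_of_nonneg_left hg2 hk0.le
    calc (k : ℝ) * g ≤ k * (1 / (2 * k)) := this
      _ = 1 / 2 := by field_simp
  have hmass : μ0 ≤ m0 := by
    by_contra hcon
    rw [not_le] at hcon
    have hm00 : 0 ≤ m0 := Finset.sum_nonneg fun i _ => by
      split_ifs
      · exact hW.p0 i
      · exact le_rfl
    have h1 := hSHI k hk2 hL V p y g x hW hg0.le (by linarith) hmx (by
      have h2 : k * g * m0 ≤ 1 * μ0 := by
        apply mul_le_mul (by linarith) hcon.le hm00 zero_le_one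
      have h3 : (k : ℝ) * x ≤ k * c := mul_le_mul_of_nonneg_left hxc' hk0.le
      rw [hμ0] at h2
      linarith)
    rw [← hm0def] at h1
    have hgm : g * (1 - m0) ≤ x := by
      refine le_trans ?_ hmx
      have e1 : g * (1 - m0) = ∑ i, (if y i ≤ g then 0 else p i * g) := by
        have e2 : (1 : ℝ) - m0 = ∑ i, (if y i ≤ g then 0 else p i) := by
          rw [← hW.p1, hm0def, ← Finset.sum_sub_distrib]
          apply Finset.sum_congr rfl
          intro i _
          split_ifs <;> ring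
        rw [e2, Finset.mul_sum]
        apply Finset.sum_congr rfl
        intro i _
        split_ifs <;> ring
      rw [e1, hmdef]
      unfold mu
      apply Finset.sum_le_sum
      intro i _
      split_ifs with hi
      · exact mul_nonneg (hW.p0 i) (hy i)
      · exact mul_le_mul_of_nonneg_left (not_le.mp hi).le (hW.p0 i)
    have hd : 0 < 1 - k * g := by linarith
    set x'' : ℝ := (x - g * (1 - m0)) / (1 - k * g) with hx''
    have hx''0 : 0 ≤ x'' := div_nonneg (by linarith) hd.le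
    have hx''1 : x'' ≤ x - g * μ0 := by
      rw [hx'', div_le_iff₀ hd]
      have h3 : (k : ℝ) * x ≤ k * c := mul_le_mul_of_nonneg_left hxc' hk0.le
      have h4 : μ0 + k * x ≤ 1 - m0 := by rw [hμ0] at hcon ⊢; linarith
      have h5 : g * (μ0 + k * x) ≤ g * (1 - m0) := mul_le_mul_of_nonneg_left h4 hg0.le
      have h6 : 0 ≤ k * g * (g * μ0) := by positivity
      nlinarith
    have hgμ : 0 ≤ g * μ0 := by positivity
    rw [hm1 x'' hx''0 (by linarith)] at h1
    have h3 : (1 - x + g * μ0) ^ k ≤ (1 - x'') ^ k := pow_le_pow_left₀ (by linarith) (by linarith) k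
    have h4 := add_pow_ge' (a := 1 - x) (b := g * μ0) (by linarith) hgμ k hk1
    linarith
  -- (d)
  have hd : 1 - X' - (θ + η) / μ0 ≤ UP p y (k - 1) (1 - g) := by
    by_contra hcon
    rw [not_le] at hcon
    have h1 : ∀ v, y v ≤ g → (θ + η) / μ0 < br v := by
      intro v hv
      have h2 := hUmono (k - 1) (1 - g) (1 - y v) (by linarith)
      have h3 : X' * (1 - y v) ≤ X' := by nlinarith [hy v]
      simp only [hbr]
      linarith
    have h2 : m0 * ((θ + η) / μ0) < ∑ v, p v * br v := by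
      have hex : ∃ v, y v ≤ g := by
        by_contra hno
        push Not at hno
        have : m0 = 0 := by
          rw [hm0def]
          apply Finset.sum_eq_zero
          intro i _
          rw [if_neg (not_le.mpr (hno i))]
        linarith
      obtain ⟨v0, hv0⟩ := hex
      rw [hm0def, Finset.sum_mul]
      apply Finset.sum_lt_sum
      · intro v _
        split_ifs with hv
        · exact mul_le_mul_of_nonneg_left (h1 v hv).le (hW.p0 v)
        · rw [zero_mul]
          exact mul_nonneg (hW.p0 v) (hbr0 v)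
      · refine ⟨v0, Finset.mem_univ _, ?_⟩
        rw [if_pos hv0]
        exact mul_lt_mul_of_pos_left (h1 v0 hv0) (by simp only [hp]; positivity)
    have h3 : θ + η ≤ m0 * ((θ + η) / μ0) := by
      have h4 : μ0 * ((θ + η) / μ0) = θ + η := by field_simp
      calc θ + η = μ0 * ((θ + η) / μ0) := h4.symm
        _ ≤ _ := mul_le_mul_of_nonneg_right hmass (by positivity)
    linarith
  -- (e)
  have hg12 : g ≤ 1 / 6 := by
    refine le_trans hg2 ?_
    rw [div_le_div_iff₀ (by positivity) (by norm_num)]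
    linarith
  have hg1p : 0 < 1 - g := by linarith
  set m' : ℝ := m / (1 - g) with hm'
  have hm'm : m ≤ m' := by
    rw [hm', le_div_iff₀ hg1p]
    nlinarith
  have hmlow : L / (2 * k) ≤ m := by
    have h1 := hL V p y m hW le_rfl hm0 (by nlinarith)
    rw [hm1 m hm0 (by linarith)] at h1
    have h2 := bern (by linarith : m ≤ 1) k
    have h3 : (1 - x) ^ k ≤ (1 - x1) ^ k := pow_le_pow_left₀ (by linarith) (by linarith) k
    have h4 : L / 2 ≤ k * m := by
      rw [hL0] at hη4 ⊢
      linarith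
    rw [div_le_iff₀ (by positivity)]
    linarith
  have hm'c : m' * k ≤ 1 := by
    rw [hm', div_mul_eq_mul_div, div_le_one hg1p]
    nlinarith
  have hm'0 : 0 ≤ m' := le_trans hm0 hm'm
  have hm'1 : m' ≤ 1 := by nlinarith
  have hfin := hS m' (le_trans hmlow hm'm) (by
    have h1 : ((k - 1 : ℕ) : ℝ) = (k : ℝ) - 1 := by
      rw [Nat.cast_sub hk1, Nat.cast_one]
    rw [h1]
    nlinarith) V (fun v => y v / (1 - g)) (fun v => div_nonneg (hy v) hg1p.le) (by
      rw [← Finset.sum_div]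
      have h1 : ∑ v, y v = m * n := by
        rw [hmu, div_mul_cancel₀ _ hn0.ne']
      rw [h1, hm']
      ring) (by
      -- the number of tuples
      have h1 := hcount (k - 1) (1 - g)
      have h2 : {f : Fin (k - 1) → V | ∑ i, y (f i) / (1 - g) < 1} =
          {f : Fin (k - 1) → V | 1 - g ≤ ∑ i, y (f i)}ᶜ := by
        ext f
        rw [Set.mem_compl_iff]
        show ∑ i, y (f i) / (1 - g) < 1 ↔ ¬ (1 - g ≤ ∑ i, y (f i))
        rw [← Finset.sum_div, div_lt_one hg1p, not_le]
      have h3 : (({f : Fin (k - 1) → V | ∑ i, y (f i) / (1 - g) < 1}.ncard : ℕ) : ℝ) =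
          n ^ (k - 1) - UP p y (k - 1) (1 - g) * n ^ (k - 1) := by
        have h4 := Set.ncard_add_ncard_compl {f : Fin (k - 1) → V | 1 - g ≤ ∑ i, y (f i)}
        rw [Nat.card_eq_fintype_card, Fintype.card_fun, Fintype.card_fin] at h4
        rw [h2, h1, hn]
        have h5 : ((({f : Fin (k - 1) → V | 1 - g ≤ ∑ i, y (f i)}.ncard : ℕ) : ℝ) +
          (({f : Fin (k - 1) → V | 1 - g ≤ ∑ i, y (f i)}ᶜ.ncard : ℕ) : ℝ)) = (Fintype.card V : ℝ) ^ (k - 1) := by
          exact_mod_cast h4
        linarith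
      rw [h3]
      have h6 : X' ≤ (1 - m') ^ (k - 1) + ((k - 1 : ℕ) : ℝ) * (2 * g) := by
        apply pow_diff (by linarith) (by linarith) (by linarith) (by linarith) (by linarith)
        have h7 : m' ≤ x + 2 * g := by
          rw [hm', div_le_iff₀ hg1p]
          nlinarith
        linarith
      have h8 : ((k - 1 : ℕ) : ℝ) * (2 * g) ≤ ηS / 2 := by
        have h9 : ((k - 1 : ℕ) : ℝ) ≤ k := by exact_mod_cast Nat.sub_le k 1
        have h10 : (k : ℝ) * g ≤ ηS / 4 := by
          calc (k : ℝ) * g ≤ k * (ηS / (4 * k)) := mul_le_mul_of_nonneg_left hg4 hk0.le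
            _ = ηS / 4 := by field_simp
        have h11 : ((k - 1 : ℕ) : ℝ) * (2 * g) ≤ k * (2 * g) := mul_le_mul_of_nonneg_right h9 (by linarith)
        linarith
      have h12 : (θ + η) / μ0 ≤ ηS / 4 := by
        rw [div_le_iff₀ hμ0p]
        linarith
      have h13 : 1 - UP p y (k - 1) (1 - g) ≤ (1 - m') ^ (k - 1) + ηS := by linarith
      have h14 : 0 ≤ n ^ (k - 1) := by positivity
      calc n ^ (k - 1) - UP p y (k - 1) (1 - g) * n ^ (k - 1)
          = (1 - UP p y (k - 1) (1 - g)) * n ^ (k - 1) := by ring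
        _ ≤ _ := mul_le_mul_of_nonneg_right h13 h14)
  have hsub : {v : V | γ < y v ∧ y v < 1 - γ} ⊆
      {v : V | γ / 2 < y v / (1 - g) ∧ y v / (1 - g) < 1 - γ / 2} := by
    intro v hv
    obtain ⟨h1, h2⟩ := hv
    constructor
    · rw [lt_div_iff₀ hg1p]
      nlinarith
    · rw [div_lt_iff₀ hg1p]
      nlinarith
  have hle := Set.ncard_le_ncard hsub (Set.toFinite _)
  calc (({v : V | γ < y v ∧ y v < 1 - γ}.ncard : ℕ) : ℝ)
      ≤ (({v : V | γ / 2 < y v / (1 - g) ∧ y v / (1 - g) < 1 - γ / 2}.ncard : ℕ) : ℝ) := by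
        exact_mod_cast hle
    _ ≤ γ / 2 * n := hfin
    _ ≤ γ * n := by
      apply mul_le_mul_of_nonneg_right _ hn0.le
      linarith

end Pool.Agent.Q14.XM
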